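import Pool.Agent.Q134.ZS.Main

/-!
Amenability of the stabilisers of the points of `G ⧸ C`.
-/

set_option autoImplicit false
set_option linter.unusedSectionVars false

open scoped Pointwise Classical symmDiff

namespace Pool.Agent.Q134.ZS

open Pool.Agent.H496R3.ZS (IsAmenable integ)
open Pool.Agent.H919R4.ZS (FinRes toRed)

lemma amenable_congr {H K : Type} [Group H] [Group K] (e : H ≃* K) (h : IsAmenable H) :
    IsAmenable K := by
  intro S ε hε
  obtain ⟨F, hF, hFS⟩ := h (S.image e.symm) ε hε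
  refine ⟨F.image e, hF.image e, fun s hs => ?_⟩
  have h1 := hFS (e.symm s) (Finset.mem_image_of_mem _ hs)
  have h2 : (s • ((F.image e : Finset K) : Set K)) ∆ ((F.image e : Finset K) : Set K) =
      e '' (((e.symm s) • (F : Set H)) ∆ (F : Set H)) := by
    rw [Set.image_symmDiff e.injective, Finset.coe_image]
    congr 1
    ext x
    constructor
    · rintro ⟨_, ⟨y, hy, rfl⟩, rfl⟩
      exact ⟨e.symm s * y, ⟨y, hy, rfl⟩, by simp⟩
    · rintro ⟨_, ⟨y, hy, rfl⟩, rfl⟩
      exact ⟨e y, ⟨y, hy, rfl⟩, by simp⟩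
  rw [h2, Set.ncard_image_of_injective _ e.injective, Finset.card_image_of_injective _ e.injective]
  exact h1

lemma amenable_stabilizer {G : Type} [Group G] {C : Subgroup G} (hC : IsAmenable C) (z : G ⧸ C) :
    IsAmenable (MulAction.stabilizer G z) := by
  obtain ⟨g, rfl⟩ := QuotientGroup.mk_surjective z
  have h1 : (QuotientGroup.mk g : G ⧸ C) = g • (QuotientGroup.mk 1 : G ⧸ C) := by
    change _ = (QuotientGroup.mk (g * 1) : G ⧸ C)
    rw [mul_one]
  rw [h1, MulAction.stabilizer_smul_eq_stabilizer_map_conj]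
  have h2 : MulAction.stabilizer G (QuotientGroup.mk 1 : G ⧸ C) = C :=
    MulAction.stabilizer_quotient C
  rw [h2]
  exact amenable_congr (C.equivMapOfInjective (MulAut.conj g).toMonoidHom
    (MulAut.conj g).injective) hC

/-- **cocycles of small growth on coverings with amenable fundamental groups** -/
theorem slow_cocycle_coset {G : Type} [Group G] (X : FinRes G) (k : ℕ)
    (h : ∀ F : Finset G, ∃ C : Subgroup G, IsAmenable C ∧
      ∃ (a b : Fin (X.n k) → (G ⧸ C) → ℂ) (S : Finset (G ⧸ C)), SuppIn a S ∧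
      IsCycle X k a ∧ IsCocycle X k b ∧ ∑ j, ∑ z ∈ S, a j z * b j z ≠ 0 ∧ GrowthLE b S F 2) :
    ∃ i ≤ k, Nontrivial (X.homology (toRed G) i) := by
  by_contra hcon
  push Not at hcon
  have hs : ∀ i ≤ k, Subsingleton (X.homology (toRed G) i) := fun i hi =>
    not_nontrivial_iff_subsingleton.1 (by simpa using hcon i hi)
  obtain ⟨E, hE, hE'⟩ := exists_approx X k hs (δ := 1 / (2 * (X.n k + 1))) (by positivity)
  have hδ : (X.n k : ℝ) * (1 / (2 * (X.n k + 1))) ≤ 1 / 2 := by
    rw [mul_one_div, div_le_div_iff₀ (by positivity) (by norm_num)]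
    nlinarith
  obtain ⟨C, hC, a, b, S, ha, hac, hbc, hne, hg⟩ := h (suppE E)
  exact hne (vanish (loc_actF E) (half_actF (amenable_stabilizer hC) E hE hδ) S a b
    (fun m => pair_iter_cocycle X k E hE' S a b ha hac hbc m) hg)

end Pool.Agent.Q134.ZS
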