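import Pool.Agent.Q134.ZS.Fun

/-!
The operators given by matrices over `ℂ[G]` on tuples of functions on a `G`-set.
-/

set_option autoImplicit false
set_option linter.unusedSectionVars false

open scoped Matrix ENNReal Pointwise Classical
open Filter Topology

namespace Pool.Agent.Q134.ZS

open Pool.Agent.H496R3.ZS (Ell permRep integ integ_single IsAmenable norm_integ_le integ_apply
  permRep_apply norm_permRep_apply)
open Pool.Agent.H919R4.ZS (FinRes RedC toRed valR L L_single coe_toRed lregL d_mul_d)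

noncomputable section

variable {G : Type} [Group G]

section

variable (Z : Type) [MulAction G Z]

/-- translation of functions -/
def trRep : G →* Module.End ℂ (Z → ℂ) where
  toFun g :=
    { toFun := fun f z => f (g⁻¹ • z)
      map_add' := fun _ _ => rfl
      map_smul' := fun _ _ => rfl }
  map_one' := by
    refine LinearMap.ext fun f => funext fun z => ?_
    change f ((1 : G)⁻¹ • z) = f z
    rw [inv_one, one_smul]
  map_mul' g h := by
    refine LinearMap.ext fun f => funext fun z => ?_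
    change f ((g * h)⁻¹ • z) = f (h⁻¹ • g⁻¹ • z)
    rw [mul_inv_rev, mul_smul]

lemma trRep_apply (g : G) (f : Z → ℂ) (z : Z) : trRep Z g f z = f (g⁻¹ • z) := rfl

/-- the group ring acting on functions -/
def tr : MonoidAlgebra ℂ G →+* Module.End ℂ (Z → ℂ) :=
  (MonoidAlgebra.lift ℂ (Module.End ℂ (Z → ℂ)) G (trRep Z)).toRingHom

lemma tr_apply (x : MonoidAlgebra ℂ G) (f : Z → ℂ) (z : Z) :
    tr Z x f z = ∑ g ∈ x.coeff.support, x.coeff g * f (g⁻¹ • z) := by
  change MonoidAlgebra.lift ℂ (Module.End ℂ (Z → ℂ)) G (trRep Z) x f z = _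
  rw [MonoidAlgebra.lift_apply, Finsupp.sum, LinearMap.sum_apply, Finset.sum_apply]
  rfl

/-- the group ring acting on functions by the adjoints -/
def trc : MonoidAlgebra ℂ G →+* (Module.End ℂ (Z → ℂ))ᵐᵒᵖ :=
  MonoidAlgebra.liftNCRingHom
    ((algebraMap ℂ (Module.End ℂ (Z → ℂ))ᵐᵒᵖ).comp (starRingEnd ℂ))
    { toFun := fun g => MulOpposite.op (trRep Z g⁻¹)
      map_one' := by rw [inv_one, map_one]; rfl
      map_mul' := fun g h => by rw [mul_inv_rev, map_mul]; rfl }
    (fun x _ => Algebra.commutes (A := (Module.End ℂ (Z → ℂ))ᵐᵒᵖ) (starRingEnd ℂ x) _)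

lemma trc_single (g : G) (c : ℂ) (f : Z → ℂ) (z : Z) :
    (trc Z (MonoidAlgebra.single g c)).unop f z = starRingEnd ℂ c * f (g • z) := by
  have h : trc Z (MonoidAlgebra.single g c) =
      algebraMap ℂ (Module.End ℂ (Z → ℂ))ᵐᵒᵖ (starRingEnd ℂ c) * MulOpposite.op (trRep Z g⁻¹) :=
    MonoidAlgebra.liftNC_single _ _ _ _
  rw [h, MulOpposite.unop_mul]
  change starRingEnd ℂ c * f ((g⁻¹)⁻¹ • z) = _
  rw [inv_inv]

lemma trc_apply (x : MonoidAlgebra ℂ G) (f : Z → ℂ) (z : Z) :
    (trc Z x).unop f z = ∑ g ∈ x.coeff.support, starRingEnd ℂ (x.coeff g) * f (g • z) := by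
  conv_lhs => rw [← MonoidAlgebra.sum_coeff_single x]
  rw [Finsupp.sum, map_sum, Finset.unop_sum, LinearMap.sum_apply, Finset.sum_apply]
  exact Finset.sum_congr rfl fun g _ => trc_single Z g _ f z

end

variable {Z : Type} [MulAction G Z]

/-- matrices acting on tuples of functions -/
def actF {a b : ℕ} (M : Matrix (Fin a) (Fin b) (MonoidAlgebra ℂ G)) (f : Fin b → Z → ℂ) :
    Fin a → Z → ℂ := fun i => ∑ j, tr Z (M i j) (f j)

/-- adjoints of matrices acting on tuples of functions -/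
def coF {a b : ℕ} (M : Matrix (Fin a) (Fin b) (MonoidAlgebra ℂ G)) (f : Fin a → Z → ℂ) :
    Fin b → Z → ℂ := fun j => ∑ i, (trc Z (M i j)).unop (f i)

lemma actF_mul {a b c : ℕ} (M : Matrix (Fin a) (Fin b) (MonoidAlgebra ℂ G))
    (N : Matrix (Fin b) (Fin c) (MonoidAlgebra ℂ G)) (f : Fin c → Z → ℂ) :
    actF (M * N) f = actF M (actF N f) := by
  funext i
  simp only [actF, Matrix.mul_apply, map_sum, LinearMap.sum_apply, map_mul, Module.End.mul_apply]
  rw [Finset.sum_comm]

lemma actF_add {a b : ℕ} (M N : Matrix (Fin a) (Fin b) (MonoidAlgebra ℂ G))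
    (f : Fin b → Z → ℂ) : actF (M + N) f = actF M f + actF N f := by
  funext i
  simp [actF, Finset.sum_add_distrib]

lemma actF_one {a : ℕ} (f : Fin a → Z → ℂ) :
    actF (1 : Matrix (Fin a) (Fin a) (MonoidAlgebra ℂ G)) f = f := by
  funext i
  simp only [actF]
  rw [Finset.sum_eq_single i]
  · simp
  · intro j _ hj; simp [hj.symm]
  · simp

lemma actF_zero {a b : ℕ} (M : Matrix (Fin a) (Fin b) (MonoidAlgebra ℂ G)) :
    actF M (0 : Fin b → Z → ℂ) = 0 := by
  funext i
  simp [actF]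

lemma actF_zero_left {a b : ℕ} (f : Fin b → Z → ℂ) :
    actF (0 : Matrix (Fin a) (Fin b) (MonoidAlgebra ℂ G)) f = 0 := by
  funext i
  simp [actF]

lemma coF_mul {a b c : ℕ} (M : Matrix (Fin a) (Fin b) (MonoidAlgebra ℂ G))
    (N : Matrix (Fin b) (Fin c) (MonoidAlgebra ℂ G)) (f : Fin a → Z → ℂ) :
    coF (M * N) f = coF N (coF M f) := by
  funext i
  simp only [coF, Matrix.mul_apply, map_sum, Finset.unop_sum, LinearMap.sum_apply, map_mul,
    MulOpposite.unop_mul, Module.End.mul_apply]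
  rw [Finset.sum_comm]

lemma coF_add {a b : ℕ} (M N : Matrix (Fin a) (Fin b) (MonoidAlgebra ℂ G))
    (f : Fin a → Z → ℂ) : coF (M + N) f = coF M f + coF N f := by
  funext i
  simp [coF, Finset.sum_add_distrib]

lemma coF_one {a : ℕ} (f : Fin a → Z → ℂ) :
    coF (1 : Matrix (Fin a) (Fin a) (MonoidAlgebra ℂ G)) f = f := by
  funext i
  simp only [coF]
  rw [Finset.sum_eq_single i]
  · simp
  · intro j _ hj; simp [hj]
  · simp

lemma coF_zero {a b : ℕ} (M : Matrix (Fin a) (Fin b) (MonoidAlgebra ℂ G)) :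
    coF M (0 : Fin a → Z → ℂ) = 0 := by
  funext i
  simp [coF]

lemma coF_zero_left {a b : ℕ} (f : Fin a → Z → ℂ) :
    coF (0 : Matrix (Fin a) (Fin b) (MonoidAlgebra ℂ G)) f = 0 := by
  funext i
  simp [coF]

/-! ### square summable functions -/

lemma integ_eq_tr (x : MonoidAlgebra ℂ G) (v : Ell Z) (z : Z) :
    integ G Z x v z = tr Z x (fun z => v z) z := by
  rw [integ_apply, tr_apply, lp.coeFn_sum, Finset.sum_apply]
  rfl

lemma permRep_adjoint (g : G) :
    ContinuousLinearMap.adjoint (permRep G Z g) = permRep G Z g⁻¹ := by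
  symm
  rw [ContinuousLinearMap.eq_adjoint_iff]
  intro u v
  set U : Ell Z →ₗᵢ[ℂ] Ell Z := ⟨(permRep G Z g).toLinearMap, fun v => norm_permRep_apply g v⟩
    with hU
  have h1 : ∀ w, U w = permRep G Z g w := fun w => rfl
  rw [← U.inner_map_map, h1, h1]
  have h2 : permRep G Z g (permRep G Z g⁻¹ u) = u := by
    rw [← mul_apply_eq_comp, ← map_mul, mul_inv_cancel, map_one]
    rfl
  rw [h2]

lemma adjoint_eq_trc (x : MonoidAlgebra ℂ G) (v : Ell Z) (z : Z) :
    ContinuousLinearMap.adjoint (integ G Z x) v z = (trc Z x).unop (fun z => v z) z := by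
  have h1 : integ G Z x = ∑ g ∈ x.coeff.support, x.coeff g • permRep G Z g := by
    refine ContinuousLinearMap.ext fun v => ?_
    rw [integ_apply, sum_apply]
    rfl
  rw [h1, map_sum, sum_apply, lp.coeFn_sum, Finset.sum_apply, trc_apply]
  refine Finset.sum_congr rfl fun g _ => ?_
  rw [LinearIsometryEquiv.map_smulₛₗ, permRep_adjoint, smul_apply, lp.coeFn_smul, Pi.smul_apply,
    permRep_apply, inv_inv]
  rfl

/-! ### locality and norms -/

/-- the elements of `G` in the supports of the entries of a matrix, and their inverses -/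
def suppE {n : ℕ} (E : Matrix (Fin n) (Fin n) (MonoidAlgebra ℂ G)) : Finset G :=
  Finset.univ.biUnion fun i => Finset.univ.biUnion fun j =>
    (E i j).coeff.support ∪ (E i j).coeff.support.image fun g => g⁻¹

lemma mem_suppE {n : ℕ} (E : Matrix (Fin n) (Fin n) (MonoidAlgebra ℂ G)) (i j : Fin n) {g : G}
    (hg : g ∈ (E i j).coeff.support) : g ∈ suppE E ∧ g⁻¹ ∈ suppE E := by
  constructor
  · rw [suppE, Finset.mem_biUnion]
    refine ⟨i, Finset.mem_univ _, ?_⟩
    rw [Finset.mem_biUnion]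
    exact ⟨j, Finset.mem_univ _, Finset.mem_union_left _ hg⟩
  · rw [suppE, Finset.mem_biUnion]
    refine ⟨i, Finset.mem_univ _, ?_⟩
    rw [Finset.mem_biUnion]
    exact ⟨j, Finset.mem_univ _, Finset.mem_union_right _ (Finset.mem_image_of_mem _ hg)⟩

lemma loc_actF {n : ℕ} (E : Matrix (Fin n) (Fin n) (MonoidAlgebra ℂ G)) :
    Loc (Z := Z) (suppE E) (actF E) := by
  intro z f f' h j
  simp only [actF, Finset.sum_apply]
  refine Finset.sum_congr rfl fun l _ => ?_
  rw [tr_apply, tr_apply]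
  refine Finset.sum_congr rfl fun g hg => ?_
  rw [h l g⁻¹ (mem_suppE E j l hg).2]

lemma loc_coF {n : ℕ} (E : Matrix (Fin n) (Fin n) (MonoidAlgebra ℂ G)) :
    Loc (Z := Z) (suppE E) (coF E) := by
  intro z f f' h j
  simp only [coF, Finset.sum_apply]
  refine Finset.sum_congr rfl fun l _ => ?_
  rw [trc_apply, trc_apply]
  refine Finset.sum_congr rfl fun g hg => ?_
  rw [h l g (mem_suppE E l j hg).1]

lemma half_actF (hZ : ∀ z : Z, IsAmenable (MulAction.stabilizer G z)) {n : ℕ}
    (E : Matrix (Fin n) (Fin n) (MonoidAlgebra ℂ G)) {δ : ℝ}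
    (hE : ∀ i j, ‖integ G G (E i j)‖ ≤ δ) (hδ : n * δ ≤ 1 / 2) :
    Half (Z := Z) (actF E) := by
  intro v
  refine ⟨fun i => ∑ j, integ G Z (E i j) (v j), ?_, ?_⟩
  · intro i z
    rw [lp.coeFn_sum, Finset.sum_apply, actF, Finset.sum_apply]
    exact Finset.sum_congr rfl fun j _ => integ_eq_tr _ _ _
  · have h1 : ∀ i ∈ Finset.univ, ‖∑ j, integ G Z (E i j) (v j)‖ ≤ δ * ∑ j, ‖v j‖ := by
      intro i _
      refine (norm_sum_le _ _).trans ?_
      rw [Finset.mul_sum]
      refine Finset.sum_le_sum fun j _ => ?_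
      refine (ContinuousLinearMap.le_opNorm _ _).trans ?_
      exact mul_le_mul_of_nonneg_right ((norm_integ_le hZ _).trans (hE i j)) (norm_nonneg _)
    have h2 := Finset.sum_le_card_nsmul Finset.univ _ _ h1
    rw [Finset.card_univ, Fintype.card_fin, nsmul_eq_mul, ← mul_assoc] at h2
    exact h2.trans (mul_le_mul_of_nonneg_right hδ (Finset.sum_nonneg fun _ _ => norm_nonneg _))

lemma half_coF (hZ : ∀ z : Z, IsAmenable (MulAction.stabilizer G z)) {n : ℕ}
    (E : Matrix (Fin n) (Fin n) (MonoidAlgebra ℂ G)) {δ : ℝ}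
    (hE : ∀ i j, ‖integ G G (E i j)‖ ≤ δ) (hδ : n * δ ≤ 1 / 2) :
    Half (Z := Z) (coF E) := by
  intro v
  refine ⟨fun j => ∑ i, ContinuousLinearMap.adjoint (integ G Z (E i j)) (v i), ?_, ?_⟩
  · intro i z
    rw [lp.coeFn_sum, Finset.sum_apply, coF, Finset.sum_apply]
    exact Finset.sum_congr rfl fun j _ => adjoint_eq_trc _ _ _
  · have h1 : ∀ j ∈ Finset.univ,
        ‖∑ i, ContinuousLinearMap.adjoint (integ G Z (E i j)) (v i)‖ ≤ δ * ∑ j, ‖v j‖ := by
      intro i _
      refine (norm_sum_le _ _).trans ?_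
      rw [Finset.mul_sum]
      refine Finset.sum_le_sum fun j _ => ?_
      refine (ContinuousLinearMap.le_opNorm _ _).trans ?_
      rw [LinearIsometryEquiv.norm_map]
      exact mul_le_mul_of_nonneg_right ((norm_integ_le hZ _).trans (hE j i)) (norm_nonneg _)
    have h2 := Finset.sum_le_card_nsmul Finset.univ _ _ h1
    rw [Finset.card_univ, Fintype.card_fin, nsmul_eq_mul, ← mul_assoc] at h2
    exact h2.trans (mul_le_mul_of_nonneg_right hδ (Finset.sum_nonneg fun _ _ => norm_nonneg _))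

end

end Pool.Agent.Q134.ZS
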