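import Pool.Agent.Q134.ZS.Semi
import Pool.Agent.Q134.ZS.Op

/-!
The norm of `C*_r(G)` on the complex group ring, in elementary terms.
-/

set_option autoImplicit false
set_option linter.unusedSectionVars false

open scoped ENNReal
open Filter Topology

namespace Pool.Agent.Q134.ZS

open Pool.Agent.H496R3.ZS (Ell integ)
open Pool.Agent.H919R4.ZS (FinRes toRed)

variable {G : Type} [Group G]

/-- The sum of the squares of the absolute values of the coefficients. -/
noncomputable def normSq (f : MonoidAlgebra ℂ G) : ℝ := f.coeff.sum fun _ c => ‖c‖ ^ 2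

/-- The norm of `x` in `C*_r(G)`, i.e. the norm of the operator `f ↦ x * f` on `ℓ²(G)`, is at most
`c`. (Finitely supported functions are dense in `ℓ²(G)`.) -/
def RedNormLE (x : MonoidAlgebra ℂ G) (c : ℝ) : Prop :=
  0 ≤ c ∧ ∀ f : MonoidAlgebra ℂ G, normSq (x * f) ≤ c ^ 2 * normSq f

/-- the `ℓ²` function of an element of the group ring -/
noncomputable def toEll (f : MonoidAlgebra ℂ G) : Ell G := trunc f.coeff.support fun g => f.coeff g

lemma toEll_apply (f : MonoidAlgebra ℂ G) (g : G) : toEll f g = f.coeff g := by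
  rw [toEll, trunc_apply]
  split_ifs with h
  · rfl
  · exact (Finsupp.notMem_support_iff.1 h).symm

lemma norm_toEll (f : MonoidAlgebra ℂ G) : ‖toEll f‖ ^ 2 = normSq f := by
  rw [toEll, norm_sq_trunc]
  rfl

lemma integ_toEll (x f : MonoidAlgebra ℂ G) : integ G G x (toEll f) = toEll (x * f) := by
  have key : ∀ (x f : MonoidAlgebra ℂ G) (h : G),
      (x * f).coeff h = ∑ g ∈ x.coeff.support, x.coeff g * f.coeff (g⁻¹ * h) := by
    intro x f h
    conv_lhs => rw [← MonoidAlgebra.sum_coeff_single x]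
    rw [Finsupp.sum, Finset.sum_mul, MonoidAlgebra.coeff_sum, Finsupp.finsetSum_apply]
    refine Finset.sum_congr rfl fun g _ => ?_
    rw [MonoidAlgebra.coeff_single_mul_apply]
  ext h
  rw [integ_eq_tr, tr_apply, toEll_apply, key]
  refine Finset.sum_congr rfl fun g _ => ?_
  rw [toEll_apply]
  rfl

lemma redNormLE_integ (x : MonoidAlgebra ℂ G) : RedNormLE x ‖integ G G x‖ := by
  refine ⟨norm_nonneg _, fun f => ?_⟩
  rw [← norm_toEll, ← norm_toEll, ← mul_pow, ← integ_toEll]
  exact pow_le_pow_left₀ (norm_nonneg _) (ContinuousLinearMap.le_opNorm _ _) 2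

/-- **semicontinuity**, elementary form -/
theorem semicontinuity' (X : FinRes G) (k : ℕ) {ι : Type} (l : Filter ι) (A : ι → Type)
    [∀ m, NormedRing (A m)] [∀ m, CompleteSpace (A m)]
    (φ : ∀ m, MonoidAlgebra ℂ G →+* A m)
    (hφ : ∀ (x : MonoidAlgebra ℂ G) (c : ℝ), RedNormLE x c →
      ∀ ε : ℝ, 0 < ε → ∀ᶠ m in l, ‖φ m x‖ ≤ c + ε)
    (h : ∃ᶠ m in l, ∃ i ≤ k, Nontrivial (X.homology ((φ m).comp cx) i)) :
    ∃ i ≤ k, Nontrivial (X.homology (toRed G) i) :=
  semicontinuity X k l A φ (fun x ε hε => hφ x _ (redNormLE_integ x) ε hε) h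

end Pool.Agent.Q134.ZS
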