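import Pool.Agent.Q134.ZS.Approx

/-!
Semicontinuity: representations whose norms are asymptotically dominated by the norm of the
regular representation.
-/

set_option autoImplicit false
set_option linter.unusedSectionVars false

open scoped Matrix ENNReal
open Filter Topology

namespace Pool.Agent.Q134.ZS

open Pool.Agent.H496R3.ZS (Ell integ)
open Pool.Agent.H919R4.ZS (FinRes toRed d_mul_d)

noncomputable section

variable {G : Type} [Group G]

section one

variable {A : Type} [NormedRing A] [CompleteSpace A]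

lemma norm_vecMul_le {n : ℕ} (M : Matrix (Fin n) (Fin n) A) {δ : ℝ} (hM : ∀ i j, ‖M i j‖ ≤ δ)
    (hδ : n * δ ≤ 1 / 2) (x : Fin n → A) : ‖x ᵥ* M‖ ≤ 1 / 2 * ‖x‖ := by
  rw [pi_norm_le_iff_of_nonneg (by positivity)]
  intro j
  change ‖∑ i, x i * M i j‖ ≤ _
  refine (norm_sum_le _ _).trans ?_
  have h1 : ∀ i ∈ Finset.univ, ‖x i * M i j‖ ≤ ‖x‖ * δ := by
    intro i _
    refine (norm_mul_le _ _).trans ?_
    exact mul_le_mul (norm_le_pi_norm x i) (hM i j) (norm_nonneg _) (norm_nonneg _)
  have h2 := Finset.sum_le_card_nsmul Finset.univ _ _ h1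
  rw [Finset.card_univ, Fintype.card_fin, nsmul_eq_mul] at h2
  refine h2.trans ?_
  have h3 : (n : ℝ) * (‖x‖ * δ) = n * δ * ‖x‖ := by ring
  rw [h3]
  exact mul_le_mul_of_nonneg_right hδ (norm_nonneg _)

/-- solving `y - y e = x` inside a closed invariant subgroup -/
lemma exists_solution {n p : ℕ} (M : Matrix (Fin n) (Fin n) A) {δ : ℝ}
    (hM : ∀ i j, ‖M i j‖ ≤ δ) (hδ : n * δ ≤ 1 / 2) (D : Matrix (Fin n) (Fin p) A)
    (hD : ∀ x : Fin n → A, x ᵥ* D = 0 → (x ᵥ* M) ᵥ* D = 0) (x : Fin n → A) (hx : x ᵥ* D = 0) :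
    ∃ y : Fin n → A, y ᵥ* D = 0 ∧ y - y ᵥ* M = x := by
  set T : (Fin n → A) → (Fin n → A) := fun x => x ᵥ* M with hT
  have hnorm : ∀ m, ‖T^[m] x‖ ≤ (1 / 2) ^ m * ‖x‖ := by
    intro m
    induction m with
    | zero => simp
    | succ m ih =>
      rw [Function.iterate_succ_apply']
      refine (norm_vecMul_le M hM hδ _).trans ?_
      calc 1 / 2 * ‖T^[m] x‖ ≤ 1 / 2 * ((1 / 2) ^ m * ‖x‖) :=
            mul_le_mul_of_nonneg_left ih (by norm_num)
        _ = (1 / 2) ^ (m + 1) * ‖x‖ := by ring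
  have hsum : Summable (fun m => T^[m] x) := by
    refine Summable.of_norm_bounded (g := fun m => (1 / 2 : ℝ) ^ m * ‖x‖) ?_ hnorm
    exact (summable_geometric_of_lt_one (by norm_num) (by norm_num)).mul_right _
  obtain ⟨y, hy⟩ := hsum
  have hcyc : ∀ m, (T^[m] x) ᵥ* D = 0 := by
    intro m
    induction m with
    | zero => exact hx
    | succ m ih =>
      rw [Function.iterate_succ_apply']
      exact hD _ ih
  let mulD : (Fin n → A) →+ (Fin p → A) :=
    { toFun := fun z => z ᵥ* D, map_zero' := Matrix.zero_vecMul _,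
      map_add' := fun a b => Matrix.add_vecMul _ _ _ }
  let mulM : (Fin n → A) →+ (Fin n → A) :=
    { toFun := fun z => z ᵥ* M, map_zero' := Matrix.zero_vecMul _,
      map_add' := fun a b => Matrix.add_vecMul _ _ _ }
  have cD : Continuous mulD := by
    change Continuous fun z : Fin n → A => z ᵥ* D
    exact continuous_id.matrix_vecMul continuous_const
  have cM : Continuous mulM := by
    change Continuous fun z : Fin n → A => z ᵥ* M
    exact continuous_id.matrix_vecMul continuous_const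
  refine ⟨y, ?_, ?_⟩
  · have h1 := hy.map mulD cD
    have h2 : (mulD ∘ fun m => T^[m] x) = fun _ => 0 := by
      funext m
      exact hcyc m
    rw [h2] at h1
    exact h1.unique hasSum_zero
  · have h1 := hy.map mulM cM
    have h2 : (mulM ∘ fun m => T^[m] x) = fun m => T^[m + 1] x := by
      funext m
      rw [Function.iterate_succ_apply']
      rfl
    rw [h2] at h1
    have h3 : HasSum (fun m => T^[m + 1] x) (y - x) := by
      have := (hasSum_nat_add_iff' (f := fun m => T^[m] x) 1).2 hy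
      simpa using this
    have h4 := h1.unique h3
    change y - mulM y = x
    rw [h4]
    abel

lemma subsingleton_homology (X : FinRes G) {S : Type*} [Ring S] (φ : MonoidAlgebra ℤ G →+* S)
    (i : ℕ) (h : ∀ x ∈ X.cyc φ i, ∃ y, y ᵥ* (X.d i).map φ = x) :
    Subsingleton (X.homology φ i) := by
  rw [Submodule.Quotient.subsingleton_iff, eq_top_iff]
  rintro ⟨x, hx⟩ -
  obtain ⟨y, hy⟩ := h x hx
  exact ⟨y, hy⟩

/-- one representation -/
theorem vanish_of_small (X : FinRes G) (k : ℕ)
    (E : Matrix (Fin (X.n k)) (Fin (X.n k)) (MonoidAlgebra ℂ G)) (hE : CIe X k E)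
    (φ : MonoidAlgebra ℂ G →+* A) {δ : ℝ} (hφ : ∀ i j, ‖φ (E i j)‖ ≤ δ)
    (hδ : X.n k * δ ≤ 1 / 2) : Subsingleton (X.homology (φ.comp cx) k) := by
  have key : ∀ i, (X.d i).map (φ.comp cx) = ((X.d i).map cx).map φ := by
    intro i
    refine funext fun j => funext fun k => rfl
  refine subsingleton_homology X _ k fun x hx => ?_
  cases k with
  | zero =>
    obtain ⟨s, hs⟩ := hE
    obtain ⟨y, -, hy⟩ := exists_solution (E.map φ) hφ hδ (0 : Matrix _ (Fin 0) A)
      (fun _ _ => by rw [Matrix.vecMul_zero]) x (by rw [Matrix.vecMul_zero])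
    refine ⟨y ᵥ* s.map φ, ?_⟩
    have h1 : s.map φ * ((X.d 0).map cx).map φ + E.map φ = 1 := by
      rw [← Matrix.map_mul, ← Matrix.map_add _ (map_add _), hs,
        Pool.Agent.H919R4.ZS.map_one']
    rw [key, Matrix.vecMul_vecMul, ← hy]
    have h2 : y ᵥ* (s.map φ * ((X.d 0).map cx).map φ + E.map φ) = y := by
      rw [h1, Matrix.vecMul_one]
    rw [Matrix.vecMul_add] at h2
    exact eq_sub_of_add_eq h2
  | succ k =>
    obtain ⟨s', s, hs⟩ := hE
    set D := ((X.d k).map cx).map φ with hD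
    set D' := ((X.d (k + 1)).map cx).map φ with hD'
    have h1 : D * s'.map φ + s.map φ * D' + E.map φ = 1 := by
      rw [hD, hD', ← Matrix.map_mul, ← Matrix.map_mul, ← Matrix.map_add _ (map_add _),
        ← Matrix.map_add _ (map_add _), hs, Pool.Agent.H919R4.ZS.map_one']
    have hDD : D' * D = 0 := by
      rw [hD, hD', ← Matrix.map_mul, ← Matrix.map_mul, d_mul_d]
      ext; simp
    have hx' : x ᵥ* D = 0 := by
      have : x ᵥ* (X.d k).map (φ.comp cx) = 0 := hx
      rwa [key] at this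
    have hEq : ∀ z : Fin (X.n (k + 1)) → A, z ᵥ* D = 0 →
        z = (z ᵥ* s.map φ) ᵥ* D' + z ᵥ* E.map φ := by
      intro z hz
      have h2 : z ᵥ* (D * s'.map φ + s.map φ * D' + E.map φ) = z := by
        rw [h1, Matrix.vecMul_one]
      rw [Matrix.vecMul_add, Matrix.vecMul_add, ← Matrix.vecMul_vecMul, hz, Matrix.zero_vecMul,
        zero_add, ← Matrix.vecMul_vecMul] at h2
      exact h2.symm
    have hinv : ∀ z : Fin (X.n (k + 1)) → A, z ᵥ* D = 0 → (z ᵥ* E.map φ) ᵥ* D = 0 := by
      intro z hz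
      have h2 := congrArg (fun w => w ᵥ* D) (hEq z hz)
      simp only [Matrix.add_vecMul] at h2
      rw [hz, Matrix.vecMul_vecMul (z ᵥ* s.map φ), hDD, Matrix.vecMul_zero, zero_add] at h2
      exact h2.symm
    obtain ⟨y, hy, hy'⟩ := exists_solution (E.map φ) hφ hδ D hinv x hx'
    refine ⟨y ᵥ* s.map φ, ?_⟩
    rw [key, ← hy']
    exact eq_sub_of_add_eq (hEq y hy).symm

end one

/-- **semicontinuity** -/
theorem semicontinuity (X : FinRes G) (k : ℕ) {ι : Type} (l : Filter ι) (A : ι → Type)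
    [∀ m, NormedRing (A m)] [∀ m, CompleteSpace (A m)]
    (φ : ∀ m, MonoidAlgebra ℂ G →+* A m)
    (hφ : ∀ (x : MonoidAlgebra ℂ G) (ε : ℝ), 0 < ε → ∀ᶠ m in l, ‖φ m x‖ ≤ ‖integ G G x‖ + ε)
    (h : ∃ᶠ m in l, ∃ i ≤ k, Nontrivial (X.homology ((φ m).comp cx) i)) :
    ∃ i ≤ k, Nontrivial (X.homology (toRed G) i) := by
  by_contra hcon
  push Not at hcon
  have hs : ∀ i ≤ k, Subsingleton (X.homology (toRed G) i) := fun i hi =>
    not_nontrivial_iff_subsingleton.1 (by simpa using hcon i hi)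
  have key : ∀ i ≤ k, ∀ᶠ m in l, Subsingleton (X.homology ((φ m).comp cx) i) := by
    intro i hi
    obtain ⟨E, hE, hE'⟩ := exists_approx X i (fun j hj => hs j (hj.trans hi))
      (δ := 1 / (4 * (X.n i + 1))) (by positivity)
    have hev : ∀ᶠ m in l, ∀ a b, ‖φ m (E a b)‖ ≤ 1 / (2 * (X.n i + 1)) := by
      rw [eventually_all]
      intro a
      rw [eventually_all]
      intro b
      filter_upwards [hφ (E a b) (1 / (4 * (X.n i + 1))) (by positivity)] with m hm
      refine hm.trans ?_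
      refine (add_le_add_left (hE a b) _).trans (le_of_eq ?_)
      field_simp
      ring
    filter_upwards [hev] with m hm
    refine vanish_of_small X i E hE' (φ m) hm ?_
    rw [mul_one_div, div_le_div_iff₀ (by positivity) (by norm_num)]
    nlinarith
  have key2 : ∀ᶠ m in l, ∀ i ≤ k, Subsingleton (X.homology ((φ m).comp cx) i) := by
    have h1 : ∀ᶠ m in l, ∀ i : Fin (k + 1), Subsingleton (X.homology ((φ m).comp cx) i) := by
      rw [eventually_all]
      intro i
      exact key i (by omega)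
    filter_upwards [h1] with m hm i hi
    exact hm ⟨i, by omega⟩
  obtain ⟨m, ⟨i, hi, hi'⟩, hm⟩ := (h.and_eventually key2).exists
  exact not_nontrivial_iff_subsingleton.2 (hm i hi) hi'

end

end Pool.Agent.Q134.ZS
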