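import Pool.Agent.Q134.ZS.SubDefs
import Pool.Agent.Q134.ZS.Approx

/-!
The algebra of the chain maps to a resolution of a subgroup.
-/

set_option autoImplicit false
set_option linter.unusedSectionVars false

open scoped Matrix

namespace Pool.Agent.Q134.ZS

open Pool.Agent.H919R4.ZS (FinRes augm d_mul_d eps eps_add eps_sub augm_single exists_rows)

noncomputable section

variable {G : Type} [Group G] {N : Subgroup G}

section generic

variable (R : Type) [CommRing R]

/-- `ℤ[N] → R[N]` -/
def cz (N : Type) [Group N] : MonoidAlgebra ℤ N →+* MonoidAlgebra R N :=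
  MonoidAlgebra.mapRingHom N (Int.castRingHom R)

lemma cz_single (N : Type) [Group N] (h : N) (n : ℤ) :
    cz R N (MonoidAlgebra.single h n) = MonoidAlgebra.single h (n : R) := by
  simp [cz]

/-- `R[N] → R[G]` -/
def ii (N : Subgroup G) : MonoidAlgebra R N →+* MonoidAlgebra R G :=
  MonoidAlgebra.mapDomainRingHom R N.subtype

lemma ii_single (h : N) (r : R) :
    ii R N (MonoidAlgebra.single h r) = MonoidAlgebra.single (h : G) r := by
  simp [ii]

/-- the additive extension of `q` -/
def g1 (q : G → MonoidAlgebra ℤ N) : MonoidAlgebra R G →+ MonoidAlgebra R N where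
  toFun x := x.coeff.sum fun γ c => c • cz R N (q γ)
  map_zero' := by simp
  map_add' x y := by
    rw [MonoidAlgebra.coeff_add]
    exact Finsupp.sum_add_index' (f := x.coeff) (g := y.coeff)
      (h := fun (γ : G) (c : R) => c • cz R N (q γ)) (fun _ => zero_smul _ _)
      (fun _ _ _ => add_smul _ _ _)

lemma g1_single (q : G → MonoidAlgebra ℤ N) (γ : G) (c : R) :
    g1 R q (MonoidAlgebra.single γ c) = c • cz R N (q γ) := by
  change (MonoidAlgebra.single γ c).coeff.sum (fun (γ : G) (c : R) => c • cz R N (q γ)) = _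
  rw [MonoidAlgebra.coeff_single, Finsupp.sum_single_index (by simp)]

lemma g1_smul (q : G → MonoidAlgebra ℤ N)
    (hq : ∀ (h : N) (γ : G), q ((h : G) * γ) = MonoidAlgebra.single h 1 * q γ)
    (a : MonoidAlgebra R N) (x : MonoidAlgebra R G) :
    g1 R q (ii R N a * x) = a * g1 R q x := by
  refine MonoidAlgebra.induction_linear a ?_ ?_ ?_
  · rw [map_zero, zero_mul, zero_mul, map_zero]
  · intro b c hb hc
    rw [map_add, add_mul, add_mul, map_add, hb, hc]
  · intro h r
    refine MonoidAlgebra.induction_linear x ?_ ?_ ?_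
    · rw [mul_zero, map_zero, mul_zero]
    · intro b c hb hc
      rw [mul_add, map_add, map_add, mul_add, hb, hc]
    · intro γ c
      rw [ii_single, MonoidAlgebra.single_mul_single, g1_single, g1_single, hq, map_mul, cz_single,
        Int.cast_one]
      have : (MonoidAlgebra.single h r : MonoidAlgebra R N) = r • MonoidAlgebra.single h 1 := by
        rw [MonoidAlgebra.smul_single, smul_eq_mul, mul_one]
      rw [this, smul_mul_assoc, mul_smul_comm, ← mul_smul]

variable {X : FinRes G} {Y : FinRes N} (P : SubMap X N Y)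

/-- the extension of the chain map to tuples -/
def gg (i : ℕ) (v : Fin (X.n i) → MonoidAlgebra R G) : Fin (Y.n i) → MonoidAlgebra R N :=
  fun m => ∑ j, g1 R (fun γ => P.p i j γ m) (v j)

lemma gg_zero (i : ℕ) : gg R P i 0 = 0 := by
  funext m
  simp [gg]

lemma gg_add (i : ℕ) (v w : Fin (X.n i) → MonoidAlgebra R G) :
    gg R P i (v + w) = gg R P i v + gg R P i w := by
  funext m
  simp [gg, Finset.sum_add_distrib]

lemma gg_neg (i : ℕ) (v : Fin (X.n i) → MonoidAlgebra R G) :
    gg R P i (-v) = - gg R P i v := by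
  funext m
  simp [gg]

lemma gg_sub (i : ℕ) (v w : Fin (X.n i) → MonoidAlgebra R G) :
    gg R P i (v - w) = gg R P i v - gg R P i w := by
  rw [sub_eq_add_neg, gg_add, gg_neg, sub_eq_add_neg]

lemma gg_sum (i : ℕ) {ι : Type} (s : Finset ι) (v : ι → Fin (X.n i) → MonoidAlgebra R G) :
    gg R P i (∑ a ∈ s, v a) = ∑ a ∈ s, gg R P i (v a) := by
  classical
  induction s using Finset.induction_on with
  | empty => simp [gg_zero]
  | insert a s ha ih => rw [Finset.sum_insert ha, Finset.sum_insert ha, gg_add, ih]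

lemma gg_smul (i : ℕ) (a : MonoidAlgebra R N) (v : Fin (X.n i) → MonoidAlgebra R G) :
    gg R P i (fun j => ii R N a * v j) = fun m => a * gg R P i v m := by
  funext m
  simp only [gg]
  rw [Finset.mul_sum]
  exact Finset.sum_congr rfl fun j _ => g1_smul R _ (fun h γ => P.lin i j h γ m) a (v j)

lemma cz_zsmul (N : Type) [Group N] (n : ℤ) (x : MonoidAlgebra ℤ N) :
    cz R N (n • x) = (n : R) • cz R N x := by
  rw [map_zsmul, Int.cast_smul_eq_zsmul]

lemma g1_mul_cz (q : G → MonoidAlgebra ℤ N) (γ : G) (c : R) (d : MonoidAlgebra ℤ G) :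
    g1 R q (MonoidAlgebra.single γ c * cz R G d) =
      c • cz R N (∑ g ∈ d.coeff.support, d.coeff g • q (γ * g)) := by
  conv_lhs => rw [← MonoidAlgebra.sum_coeff_single d]
  rw [Finsupp.sum, map_sum, Finset.mul_sum, map_sum, map_sum, Finset.smul_sum]
  refine Finset.sum_congr rfl fun g _ => ?_
  rw [cz_single, MonoidAlgebra.single_mul_single, g1_single, cz_zsmul, ← mul_smul]

lemma gg_bd_aux (i : ℕ) (j : Fin (X.n (i + 1))) (m : Fin (Y.n i)) (x : MonoidAlgebra R G) :
    ∑ l, g1 R (fun γ => P.p i l γ m) (x * cz R G (X.d i j l)) =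
      ∑ m', g1 R (fun γ => P.p (i + 1) j γ m') x * cz R N (Y.d i m' m) := by
  refine MonoidAlgebra.induction_linear x ?_ ?_ ?_
  · simp
  · intro b c hb hc
    simp only [add_mul, map_add, Finset.sum_add_distrib]
    rw [hb, hc]
  · intro γ c
    have h1 := congrFun (P.bd i j γ) m
    have h2 : (∑ l, ∑ g ∈ (X.d i j l).coeff.support, (X.d i j l).coeff g • P.p i l (γ * g)) m =
        ∑ l, ∑ g ∈ (X.d i j l).coeff.support, (X.d i j l).coeff g • P.p i l (γ * g) m := by
      simp only [Finset.sum_apply, Pi.smul_apply]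
    rw [h2] at h1
    simp only [g1_mul_cz, g1_single]
    rw [← Finset.smul_sum, ← map_sum, ← h1, Matrix.vecMul, dotProduct, map_sum, Finset.smul_sum]
    refine Finset.sum_congr rfl fun m' _ => ?_
    rw [map_mul, smul_mul_assoc]

/-- the chain map property -/
lemma gg_bd (i : ℕ) (v : Fin (X.n (i + 1)) → MonoidAlgebra R G) :
    gg R P i (v ᵥ* (X.d i).map (cz R G)) = gg R P (i + 1) v ᵥ* (Y.d i).map (cz R N) := by
  funext m
  simp only [gg, Matrix.vecMul, dotProduct, Matrix.map_apply, map_sum, Finset.sum_mul]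
  rw [Finset.sum_comm]
  conv_rhs => rw [Finset.sum_comm]
  exact Finset.sum_congr rfl fun j _ => gg_bd_aux R P i j m (v j)

end generic

end

end Pool.Agent.Q134.ZS
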