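import Pool.Agent.H919R4.ZS.Defs

/-!
Chain maps from a resolution over `ℤ[G]` to a resolution over `ℤ[N]`, `N` a subgroup of `G`.

Let `X : FinRes G` be the cellular chain complex of the universal cover of a finite aspherical
complex with fundamental group `G`, and `Y : FinRes N` the one of a finite aspherical complex with
fundamental group `N ≤ G`. The cells of the universal cover of the first complex are the pairs
`(j, γ)` with `j : Fin (X.n i)`, `γ : G`, i.e. the elements `γ e_j` of `ℤ[G]^(X.n i)`.
-/

set_option autoImplicit false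

open scoped Matrix Pointwise Classical

namespace Pool.Agent.Q134.ZS

open Pool.Agent.H919R4.ZS (FinRes augm)

variable {G : Type} [Group G]

/-- A `ℤ[N]`-linear chain map `C_*(X) → C_*(Y)` over the identity of `ℤ`, given by the images
`p i j γ` of the cells `γ e_j` of dimension `i`. -/
structure SubMap (X : FinRes G) (N : Subgroup G) (Y : FinRes N) where
  /-- the image of the cell `(j, γ)` of dimension `i` -/
  p : ∀ i, Fin (X.n i) → G → Fin (Y.n i) → MonoidAlgebra ℤ N
  /-- linearity over `N` -/
  lin : ∀ (i : ℕ) (j : Fin (X.n i)) (h : N) (γ : G) (m : Fin (Y.n i)),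
    p i j ((h : G) * γ) m = MonoidAlgebra.single h 1 * p i j γ m
  /-- compatibility with the boundary maps -/
  bd : ∀ (i : ℕ) (j : Fin (X.n (i + 1))) (γ : G), p (i + 1) j γ ᵥ* Y.d i =
    ∑ l, ∑ g ∈ (X.d i j l).coeff.support, (X.d i j l).coeff g • p i l (γ * g)
  /-- compatibility with the augmentations -/
  aug : ∀ (j : Fin (X.n 0)) (γ : G), ∑ m, augm N (p 0 j γ m) * Y.aug m = X.aug j

/-- The size of a chain: the sum of the absolute values of all coefficients. -/
def chainSize {N : Type} [Group N] {b : ℕ} (c : Fin b → MonoidAlgebra ℤ N) : ℝ :=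
  ∑ m, ∑ h ∈ (c m).coeff.support, |((c m).coeff h : ℝ)|

/-- The chain map has subexponential growth up to the degree `k`: for every finite set `F` of
elements of `G` and every `lam > 1` there are infinitely many `r` with the following property. For
some finite set `T` which meets all cosets `N g`, `g ∈ F ^ r`, the sum of the sizes of the images of
the cells `γ e_j`, `γ ∈ T`, of each dimension `i ≤ k` is at most `lam ^ r`. (The size of the image of
`γ e_j` depends only on `N γ`.) -/
def SubMap.Slow {X : FinRes G} {N : Subgroup G} {Y : FinRes N} (P : SubMap X N Y) (k : ℕ) : Prop :=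
  ∀ (F : Finset G) (lam : ℝ), 1 < lam → ∃ᶠ r : ℕ in Filter.atTop, ∃ T : Finset G,
    (∀ g ∈ F ^ r, ∃ γ ∈ T, g * γ⁻¹ ∈ N) ∧
      ∀ i ≤ k, ∑ j, ∑ γ ∈ T, chainSize (P.p i j γ) ≤ lam ^ r

end Pool.Agent.Q134.ZS
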