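import Pool.Agent.Q134.ZS.SubMat
import Pool.Agent.Q134.ZS.Op

/-!
Norm estimates for the chain maps to a resolution of a subgroup.
-/

set_option autoImplicit false
set_option linter.unusedSectionVars false

open scoped Matrix ENNReal Pointwise Classical

namespace Pool.Agent.Q134.ZS

open Pool.Agent.H496R3.ZS (Ell permRep integ integ_single integ_apply permRep_apply
  norm_permRep_apply)
open Pool.Agent.H919R4.ZS (FinRes augm d_mul_d eps)

noncomputable section

variable {G : Type} [Group G] {N : Subgroup G}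

/-! ### the part of an element of `ℂ[G]` in a coset -/

lemma mul_inj (N : Subgroup G) (γ : G) : Function.Injective (fun h : N => (h : G) * γ) :=
  fun a b hab => by
  have : (a : G) * γ = b * γ := hab
  exact Subtype.ext (mul_right_cancel this)

/-- the part of `x` in the coset `N γ` -/
def part (N : Subgroup G) (γ : G) (x : MonoidAlgebra ℂ G) : MonoidAlgebra ℂ N :=
  MonoidAlgebra.ofCoeff (Finsupp.comapDomain (fun h : N => (h : G) * γ) x.coeff
    (mul_inj N γ).injOn)

lemma part_coeff (γ : G) (x : MonoidAlgebra ℂ G) (h : N) :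
    (part N γ x).coeff h = x.coeff (h * γ) := rfl

/-- extension by zero of functions on `N` to `γ⁻¹ N` -/
def ext0 (γ : G) (f : N → ℂ) : G → ℂ := fun g => if h : γ * g ∈ N then f ⟨γ * g, h⟩ else 0

lemma ext0_apply (γ : G) (f : N → ℂ) (n : N) : ext0 γ f (γ⁻¹ * n) = f n := by
  have h : γ * (γ⁻¹ * n) ∈ N := by rw [mul_inv_cancel_left]; exact n.2
  rw [ext0, dif_pos h]
  congr 1
  exact Subtype.ext (mul_inv_cancel_left _ _)

lemma ext0_ne (γ : G) (f : N → ℂ) {g : G} (hg : γ * g ∉ N) : ext0 γ f g = 0 := by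
  rw [ext0, dif_neg hg]

lemma inj2 (N : Subgroup G) (γ : G) : Function.Injective (fun n : N => γ⁻¹ * (n : G)) :=
  fun a b hab => by
  have : γ⁻¹ * (a : G) = γ⁻¹ * b := hab
  exact Subtype.ext (mul_left_cancel this)

lemma ext0_hasSum (γ : G) (f : Ell N) :
    HasSum (fun g => ‖ext0 γ (fun n => f n) g‖ ^ 2) (‖f‖ ^ 2) := by
  refine (Function.Injective.hasSum_iff (inj2 N γ) ?_).1 ?_
  · intro g hg
    rw [ext0_ne]
    · simp
    · intro h
      exact hg ⟨⟨γ * g, h⟩, by simp⟩
  · have h := norm_sq_eq f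
    have h2 : ((fun g => ‖ext0 γ (fun n => f n) g‖ ^ 2) ∘ fun n : N => γ⁻¹ * (n : G)) =
        fun n => ‖f n‖ ^ 2 := by
      funext n
      change ‖ext0 γ (fun n => f n) (γ⁻¹ * n)‖ ^ 2 = _
      rw [ext0_apply]
    rw [h2]
    exact h

/-- the extension in `ℓ²(G)` -/
def extL (γ : G) (f : Ell N) : Ell G :=
  ⟨ext0 γ (fun n => f n), by
    refine memℓp_gen ?_
    have h4 : (2 : ENNReal).toReal = ((2 : ℕ) : ℝ) := by norm_num
    simp only [h4, Real.rpow_natCast]
    exact (ext0_hasSum γ f).summable⟩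

lemma extL_apply (γ : G) (f : Ell N) (g : G) : extL γ f g = ext0 γ (fun n => f n) g := rfl

lemma norm_extL (γ : G) (f : Ell N) : ‖extL γ f‖ ^ 2 = ‖f‖ ^ 2 :=
  (norm_sq_eq (extL γ f)).unique (ext0_hasSum γ f)

lemma integ_extL (γ : G) (x : MonoidAlgebra ℂ G) (f : Ell N) (n : N) :
    integ G G x (extL γ f) n = integ N N (part N γ x) f n := by
  rw [integ_eq_tr, integ_eq_tr, tr_apply, tr_apply]
  have h1 : ((part N γ x).coeff.support.image fun h : N => (h : G) * γ) ⊆ x.coeff.support := by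
    intro g hg
    obtain ⟨h, hh, rfl⟩ := Finset.mem_image.1 hg
    rw [Finsupp.mem_support_iff] at hh ⊢
    exact hh
  rw [← Finset.sum_subset h1, Finset.sum_image (fun a _ b _ hab => mul_inj N γ hab)]
  · refine Finset.sum_congr rfl fun h _ => ?_
    rw [part_coeff, extL_apply]
    congr 1
    have h2 : ((h : G) * γ)⁻¹ • (n : G) = γ⁻¹ * ((h⁻¹ • n : N) : G) := by
      simp [mul_assoc, smul_eq_mul]
    rw [h2, ext0_apply]
  · intro g hg hg'
    rw [extL_apply, ext0_ne, mul_zero]
    intro hmem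
    apply hg'
    have h3 : g * γ⁻¹ ∈ N := by
      have h4 : γ * (g⁻¹ • (n : G)) * (n : G)⁻¹ = (g * γ⁻¹)⁻¹ := by
        simp [smul_eq_mul, mul_assoc]
      have h5 := N.mul_mem hmem (N.inv_mem n.2)
      rw [h4] at h5
      simpa using N.inv_mem h5
    refine Finset.mem_image.2 ⟨⟨g * γ⁻¹, h3⟩, ?_, by simp⟩
    rw [Finsupp.mem_support_iff, part_coeff]
    simpa using hg

/-- **the norm of a part** -/
theorem norm_part_le (γ : G) (x : MonoidAlgebra ℂ G) :
    ‖integ N N (part N γ x)‖ ≤ ‖integ G G x‖ := by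
  refine ContinuousLinearMap.opNorm_le_bound _ (norm_nonneg _) fun f => ?_
  have h1 : ‖integ N N (part N γ x) f‖ ^ 2 ≤ ‖integ G G x (extL γ f)‖ ^ 2 := by
    refine hasSum_le_inj (fun n : N => (n : G)) Subtype.val_injective
      (fun c _ => by positivity) (fun n => ?_) (norm_sq_eq _) (norm_sq_eq _)
    rw [integ_extL]
  have h2 := (sq_le_sq₀ (norm_nonneg _) (norm_nonneg _)).1 h1
  refine h2.trans ?_
  refine (ContinuousLinearMap.le_opNorm _ _).trans ?_
  have h3 : ‖extL γ f‖ = ‖f‖ := by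
    have := norm_extL γ f
    exact (pow_left_inj₀ (norm_nonneg _) (norm_nonneg _) two_ne_zero).1 this
  rw [h3]

/-! ### the additive extension -/

lemma part_sub (γ : G) (x y : MonoidAlgebra ℂ G) :
    part N γ (x - y) = part N γ x - part N γ y := by
  ext h
  rw [part_coeff, MonoidAlgebra.coeff_sub, MonoidAlgebra.coeff_sub, Finsupp.sub_apply,
    Finsupp.sub_apply, part_coeff, part_coeff]

lemma ii_coeff_mem (y : MonoidAlgebra ℂ N) (h : N) : (ii ℂ N y).coeff h = y.coeff h := by
  refine MonoidAlgebra.induction_linear y ?_ ?_ ?_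
  · simp
  · intro a b ha hb
    rw [map_add, MonoidAlgebra.coeff_add, MonoidAlgebra.coeff_add, Finsupp.add_apply,
      Finsupp.add_apply, ha, hb]
  · intro g c
    rw [ii_single, MonoidAlgebra.coeff_single, MonoidAlgebra.coeff_single, Finsupp.single_apply,
      Finsupp.single_apply]
    by_cases hgh : g = h
    · subst hgh
      rw [if_pos rfl, if_pos rfl]
    · rw [if_neg hgh, if_neg (fun e => hgh (Subtype.ext e))]

lemma ii_coeff_notMem (y : MonoidAlgebra ℂ N) {g : G} (hg : g ∉ N) : (ii ℂ N y).coeff g = 0 := by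
  refine MonoidAlgebra.induction_linear y ?_ ?_ ?_
  · simp
  · intro a b ha hb
    rw [map_add, MonoidAlgebra.coeff_add, Finsupp.add_apply, ha, hb, add_zero]
  · intro h c
    rw [ii_single, MonoidAlgebra.coeff_single, Finsupp.single_apply, if_neg]
    rintro rfl
    exact hg h.2

lemma coset_coeff (γ : G) (x : MonoidAlgebra ℂ G) (g : G) :
    (ii ℂ N (part N γ x) * MonoidAlgebra.single γ 1).coeff g =
      if g * γ⁻¹ ∈ N then x.coeff g else 0 := by
  rw [MonoidAlgebra.coeff_mul_single_apply, mul_one]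
  split_ifs with h
  · have := ii_coeff_mem (part N γ x) ⟨g * γ⁻¹, h⟩
    rw [part_coeff] at this
    simpa using this
  · exact ii_coeff_notMem _ h

/-- the sum of the absolute values of the coefficients -/
def l1 (x : MonoidAlgebra ℤ N) : ℝ := ∑ h ∈ x.coeff.support, |(x.coeff h : ℝ)|

lemma l1_nonneg (x : MonoidAlgebra ℤ N) : 0 ≤ l1 x := Finset.sum_nonneg fun _ _ => abs_nonneg _

lemma norm_integ_cz_le (x : MonoidAlgebra ℤ N) : ‖integ N N (cz ℂ N x)‖ ≤ l1 x := by
  conv_lhs => rw [← MonoidAlgebra.sum_coeff_single x]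
  rw [Finsupp.sum, map_sum, map_sum, l1]
  refine (norm_sum_le _ _).trans (Finset.sum_le_sum fun h _ => ?_)
  rw [cz_single]
  have h1 : (MonoidAlgebra.single h (x.coeff h : ℂ) : MonoidAlgebra ℂ N) =
      (x.coeff h : ℂ) • MonoidAlgebra.single h 1 := by
    rw [MonoidAlgebra.smul_single, smul_eq_mul, mul_one]
  rw [h1, map_smul, integ_single, norm_smul]
  have h2 : ‖permRep N N h‖ ≤ 1 :=
    ContinuousLinearMap.opNorm_le_bound _ zero_le_one fun v => by
      rw [norm_permRep_apply, one_mul]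
  calc ‖(x.coeff h : ℂ)‖ * ‖permRep N N h‖ ≤ ‖(x.coeff h : ℂ)‖ * 1 :=
        mul_le_mul_of_nonneg_left h2 (norm_nonneg _)
    _ = |(x.coeff h : ℝ)| := by rw [mul_one, Complex.norm_intCast]

theorem norm_g1_le (q : G → MonoidAlgebra ℤ N)
    (hq : ∀ (h : N) (γ : G), q ((h : G) * γ) = MonoidAlgebra.single h 1 * q γ) (c : ℝ)
    (T : Finset G) : ∀ (x : MonoidAlgebra ℂ G),
    (∀ g ∈ x.coeff.support, ∃ γ ∈ T, g * γ⁻¹ ∈ N) → (∀ γ, ‖integ N N (part N γ x)‖ ≤ c) →
    ‖integ N N (g1 ℂ q x)‖ ≤ ∑ γ ∈ T, c * l1 (q γ) := by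
  induction T using Finset.induction_on with
  | empty =>
    intro x hx _
    have h0 : x = 0 := by
      ext g
      by_contra hg
      obtain ⟨γ, hγ, -⟩ := hx g (Finsupp.mem_support_iff.2 hg)
      exact absurd hγ (Finset.notMem_empty γ)
    rw [h0, map_zero, map_zero, norm_zero, Finset.sum_empty]
  | insert γ T hγ ih =>
    intro x hx hc
    set y := ii ℂ N (part N γ x) * MonoidAlgebra.single γ 1 with hy
    have hz : ∀ g, (x - y).coeff g = if g * γ⁻¹ ∈ N then 0 else x.coeff g := by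
      intro g
      rw [MonoidAlgebra.coeff_sub, Finsupp.sub_apply, hy, coset_coeff]
      split_ifs <;> simp
    have h1 := ih (x - y) ?_ ?_
    · have h2 : g1 ℂ q x = g1 ℂ q (x - y) + part N γ x * cz ℂ N (q γ) := by
        have h3 : g1 ℂ q y = part N γ x * cz ℂ N (q γ) := by
          rw [hy, g1_smul ℂ q hq, g1_single, one_smul]
        rw [← h3, ← map_add, sub_add_cancel]
      rw [h2, map_add, Finset.sum_insert hγ, add_comm (c * l1 (q γ))]
      refine (norm_add_le _ _).trans (add_le_add h1 ?_)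
      rw [map_mul]
      refine (norm_mul_le _ _).trans ?_
      exact mul_le_mul (hc γ) (norm_integ_cz_le _) (norm_nonneg _)
        ((norm_nonneg _).trans (hc γ))
    · intro g hg
      rw [Finsupp.mem_support_iff, hz] at hg
      split_ifs at hg with hmem
      · exact absurd rfl hg
      · obtain ⟨δ, hδ, hδ'⟩ := hx g (Finsupp.mem_support_iff.2 hg)
        rcases Finset.mem_insert.1 hδ with rfl | hδ
        · exact absurd hδ' hmem
        · exact ⟨δ, hδ, hδ'⟩
    · intro δ
      by_cases hδ : δ * γ⁻¹ ∈ N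
      · have : part N δ (x - y) = 0 := by
          ext h
          rw [part_coeff, hz, if_pos]
          · simp
          · rw [mul_assoc]; exact N.mul_mem h.2 hδ
        rw [this, map_zero, norm_zero]
        exact (norm_nonneg _).trans (hc γ)
      · have : part N δ (x - y) = part N δ x := by
          ext h
          rw [part_coeff, hz, if_neg, part_coeff]
          intro hmem
          apply hδ
          have := N.mul_mem (N.inv_mem h.2) hmem
          simpa [mul_assoc] using this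
        rw [this]
        exact hc δ

variable {X : FinRes G} {Y : FinRes N} (P : SubMap X N Y)

theorem norm_gg_le (i : ℕ) (v : Fin (X.n i) → MonoidAlgebra ℂ G) (T : Finset G)
    (hv : ∀ j, ∀ g ∈ (v j).coeff.support, ∃ γ ∈ T, g * γ⁻¹ ∈ N) (m : Fin (Y.n i)) :
    ‖integ N N (gg ℂ P i v m)‖ ≤
      (∑ j, ‖integ G G (v j)‖) * ∑ j, ∑ γ ∈ T, chainSize (P.p i j γ) := by
  have h1 : ∀ j, ‖integ N N (g1 ℂ (fun γ => P.p i j γ m) (v j))‖ ≤
      ‖integ G G (v j)‖ * ∑ γ ∈ T, chainSize (P.p i j γ) := by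
    intro j
    refine (norm_g1_le (fun γ => P.p i j γ m) (fun h γ => P.lin i j h γ m) ‖integ G G (v j)‖ T
      (v j) (hv j) (fun γ => norm_part_le γ (v j))).trans ?_
    rw [← Finset.mul_sum]
    refine mul_le_mul_of_nonneg_left (Finset.sum_le_sum fun γ _ => ?_) (norm_nonneg _)
    rw [chainSize]
    exact Finset.single_le_sum (f := fun m => l1 (P.p i j γ m)) (fun m _ => l1_nonneg _)
      (Finset.mem_univ m)
  have hcs : ∀ j γ, 0 ≤ chainSize (P.p i j γ) := fun j γ =>
    Finset.sum_nonneg fun m _ => l1_nonneg _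
  rw [gg, map_sum]
  refine (norm_sum_le _ _).trans ((Finset.sum_le_sum fun j _ => h1 j).trans ?_)
  rw [Finset.sum_mul]
  refine Finset.sum_le_sum fun j _ => mul_le_mul_of_nonneg_left ?_ (norm_nonneg _)
  exact Finset.single_le_sum (f := fun j => ∑ γ ∈ T, chainSize (P.p i j γ))
    (fun j _ => Finset.sum_nonneg fun γ _ => hcs j γ) (Finset.mem_univ j)

/-! ### powers -/

/-- the norm of a row -/
def rs {a b : ℕ} (M : Matrix (Fin a) (Fin b) (MonoidAlgebra ℂ G)) (i : Fin a) : ℝ :=
  ∑ j, ‖integ G G (M i j)‖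

lemma rs_nonneg {a b : ℕ} (M : Matrix (Fin a) (Fin b) (MonoidAlgebra ℂ G)) (i : Fin a) :
    0 ≤ rs M i := Finset.sum_nonneg fun _ _ => norm_nonneg _

lemma rs_mul {a b : ℕ} (M : Matrix (Fin a) (Fin b) (MonoidAlgebra ℂ G))
    (e : Matrix (Fin b) (Fin b) (MonoidAlgebra ℂ G)) {q : ℝ} (he : ∀ i, rs e i ≤ q)
    (i : Fin a) : rs (M * e) i ≤ rs M i * q := by
  calc rs (M * e) i ≤ ∑ j, ∑ l, ‖integ G G (M i l)‖ * ‖integ G G (e l j)‖ := by
        refine Finset.sum_le_sum fun j _ => ?_
        rw [Matrix.mul_apply, map_sum]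
        refine (norm_sum_le _ _).trans (Finset.sum_le_sum fun l _ => ?_)
        rw [map_mul]
        exact norm_mul_le _ _
    _ = ∑ l, ‖integ G G (M i l)‖ * rs e l := by
        rw [Finset.sum_comm]
        exact Finset.sum_congr rfl fun l _ => by rw [rs, Finset.mul_sum]
    _ ≤ ∑ l, ‖integ G G (M i l)‖ * q :=
        Finset.sum_le_sum fun l _ => mul_le_mul_of_nonneg_left (he l) (norm_nonneg _)
    _ = rs M i * q := by rw [rs, Finset.sum_mul]

lemma rs_pow {a b : ℕ} (M : Matrix (Fin a) (Fin b) (MonoidAlgebra ℂ G))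
    (e : Matrix (Fin b) (Fin b) (MonoidAlgebra ℂ G)) {q : ℝ} (hq : 0 ≤ q) (he : ∀ i, rs e i ≤ q)
    (m : ℕ) (i : Fin a) : rs (M * e ^ m) i ≤ rs M i * q ^ m := by
  induction m with
  | zero => simp
  | succ m ih =>
    rw [pow_succ, ← Matrix.mul_assoc]
    refine (rs_mul _ e he i).trans ?_
    rw [pow_succ, ← mul_assoc]
    exact mul_le_mul_of_nonneg_right ih hq

/-- the elements of `G` in the supports of the entries of a matrix -/
def supp {a b : ℕ} (E : Matrix (Fin a) (Fin b) (MonoidAlgebra ℂ G)) : Finset G :=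
  Finset.univ.biUnion fun i => Finset.univ.biUnion fun j => (E i j).coeff.support

lemma mem_supp {a b : ℕ} (E : Matrix (Fin a) (Fin b) (MonoidAlgebra ℂ G)) (i : Fin a)
    (j : Fin b) : (E i j).coeff.support ⊆ supp E := by
  intro g hg
  rw [supp, Finset.mem_biUnion]
  refine ⟨i, Finset.mem_univ _, ?_⟩
  rw [Finset.mem_biUnion]
  exact ⟨j, Finset.mem_univ _, hg⟩

lemma support_sum {ι : Type} (s : Finset ι) (f : ι → MonoidAlgebra ℂ G) (S : Finset G)
    (h : ∀ a ∈ s, (f a).coeff.support ⊆ S) : (∑ a ∈ s, f a).coeff.support ⊆ S := by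
  intro g hg
  rw [MonoidAlgebra.coeff_sum, Finsupp.mem_support_iff, Finsupp.finsetSum_apply] at hg
  obtain ⟨a, ha, ha'⟩ := Finset.exists_ne_zero_of_sum_ne_zero hg
  exact h a ha (Finsupp.mem_support_iff.2 ha')

lemma support_pow {a b : ℕ} (M : Matrix (Fin a) (Fin b) (MonoidAlgebra ℂ G))
    (e : Matrix (Fin b) (Fin b) (MonoidAlgebra ℂ G)) {S : Finset G} (hM : supp M ⊆ S)
    (he : supp e ⊆ S) (m : ℕ) (i : Fin a) (j : Fin b) :
    ((M * e ^ m) i j).coeff.support ⊆ S ^ (m + 1) := by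
  induction m generalizing j with
  | zero =>
    rw [pow_zero, Matrix.mul_one, zero_add, pow_one]
    exact (mem_supp M i j).trans hM
  | succ m ih =>
    rw [pow_succ, ← Matrix.mul_assoc, Matrix.mul_apply]
    refine support_sum _ _ _ fun l _ => ?_
    refine (MonoidAlgebra.support_coeff_mul_subset _ _).trans ?_
    rw [pow_succ S (m + 1)]
    exact Finset.mul_subset_mul (ih l) ((mem_supp e l j).trans he)

end

end Pool.Agent.Q134.ZS
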